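import Pool.Agent.Work.MP_ead3fc_ag.S.Smooth

/-!
# L² Poincaré lemma for holomorphic maps of corank at most one

`F` is a holomorphic map on a neighbourhood `W` of a closed box of `ℂ^(m+1)` such that the last
`m` coordinates are linear functions of `F` (so `F` has corank at most one, and every germ of a
finite map of corank at most one has such coordinates), and `F` is an immersion outside the
closed set `A`, which is contained in the zero set of a holomorphic function `h` without zeros on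
one side of the box. Then the L² cohomology of the complement of `A` in the box, for the metric
induced by `F` from the Euclidean metric (complex of the smooth forms `ω` with `ω` and `dω`
square integrable), vanishes in positive degrees and consists of the constants in degree zero.
-/

open MeasureTheory Set

namespace Pool.Agent.Results.MP_ead3fc_ag.CorankOne

open L2P

/-- Smooth square integrable forms on `Ω` for the metric `F^* (Euclidean metric)`. -/
structure SmoothL2 {n N k : ℕ} (F : (Fin n → ℂ) → EuclideanSpace ℂ (Fin N))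
    (Ω : Set (Fin n → ℂ)) (ω : Form n k) : Prop where
  smooth : ContDiffOn ℝ ((⊤ : ℕ∞) : WithTop ℕ∞) ω Ω
  l2 : IsL2 F Ω ω

/-- `d η = ω` on `Ω`. -/
def IsD {n k : ℕ} (Ω : Set (Fin n → ℂ)) (η : Form n k) (ω : Form n (k + 1)) : Prop :=
  ∀ x ∈ Ω, extDeriv η x = ω x

/-- The constant `0`-form `c`. -/
noncomputable def constForm (n : ℕ) (c : ℂ) : Form n 0 := fun _ =>
  ContinuousAlternatingMap.constOfIsEmpty ℝ (Fin n → ℂ) (Fin 0) c

theorem result (m N : ℕ) (a b : Fin (m + 1) → ℂ) (W A : Set (Fin (m + 1) → ℂ))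
    (F : (Fin (m + 1) → ℂ) → EuclideanSpace ℂ (Fin N))
    (L : EuclideanSpace ℂ (Fin N) →L[ℂ] (Fin m → ℂ)) (h : (Fin (m + 1) → ℂ) → ℂ)
    (hne : (cbox a b).Nonempty) (hW : IsOpen W) (hUW : closure (cbox a b) ⊆ W)
    (hF : DifferentiableOn ℂ F W) (hL : ∀ z ∈ W, ∀ j : Fin m, L (F z) j = z j.succ)
    (hh : DifferentiableOn ℂ h W) (hA : IsClosed A)
    (hAh : ∀ z ∈ closure (cbox a b), z ∈ A → h z = 0)
    (hside : ∀ z ∈ closure (cbox a b), (z 0).re = (a 0).re → h z ≠ 0)
    (himm : ∀ z ∈ closure (cbox a b), z ∉ A → Function.Injective (fderiv ℂ F z)) :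
    (∀ (k : ℕ) (ω : Form (m + 1) (k + 1)), SmoothL2 F (cbox a b \ A) ω →
      IsD (cbox a b \ A) ω 0 →
      ∃ η : Form (m + 1) k, SmoothL2 F (cbox a b \ A) η ∧ IsD (cbox a b \ A) η ω) ∧
    (∀ ω : Form (m + 1) 0, SmoothL2 F (cbox a b \ A) ω ∧ IsD (cbox a b \ A) ω 0 ↔
      ∃ c : ℂ, EqOn ω (constForm (m + 1) c) (cbox a b \ A)) := by
  let X : Chart m N := ⟨a, b, W, F, L, h, A, hne, hW, hUW, hF, hL, hh, hA, hAh, hside, himm⟩
  refine ⟨fun k ω h1 h2 => ?_, fun ω => ⟨fun h => X.smooth_zero h.1.1 h.1.2 h.2, ?_⟩⟩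
  · obtain ⟨η, h3, h4, h5⟩ := X.smooth_pos h1.1 h1.2 h2
    exact ⟨η, ⟨h3, h4⟩, h5⟩
  · rintro ⟨c, hc⟩
    obtain ⟨h1, h2, h3⟩ := X.smooth_const hc
    exact ⟨⟨h1, h2⟩, h3⟩

end Pool.Agent.Results.MP_ead3fc_ag.CorankOne
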