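import Pool.Agent.Work.MP_ead3fc_ag.M.Main
import Pool.Agent.Work.MP_ead3fc_ag.M.Var
import Pool.Agent.Work.MP_ead3fc_ag.M.Jac

/-!
# L² cohomology of projective varieties with smooth normalisation of corank at most one

`M` is a compact complex manifold, `F : M → ℙ^N` a holomorphic map with finite fibres and of
corank at most one, `A` a closed thin subset of `M` such that `F` is an immersion outside `A`.
The `L²` cohomology of `M \ A` for the metric induced by `F` from the Fubini-Study metric is the
de Rham cohomology of `M`. If `M` is connected and `F` is the normalisation of its image `X`, an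
algebraic subset of `ℙ^N`, then `A = F ⁻¹' (singular locus of X)` satisfies the hypotheses,
`M \ A` is the regular locus of `X` with the Fubini-Study metric and `H(M)` is the intersection
cohomology of `X`.
-/

set_option autoImplicit false

open Set Filter Topology MeasureTheory
open scoped ContDiff Manifold ENNReal LinearAlgebra.Projectivization

namespace Pool.Agent.Results.MP_ead3fc_ag.SmoothNormalisation

open L2M

section

variable {M : Type} [TopologicalSpace M] {n N : ℕ} [ChartedSpace (Fin n → ℂ) M]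

/-- The `L²` cohomology of `M \ A` is isomorphic to the de Rham cohomology of `M` in degree `k`. -/
def Iso (F : M → ℙ ℂ (Hil (N + 1))) (A : Set M) (k : ℕ) : Prop :=
  Nonempty (HL2 (n := n) F A k ≃ₗ[ℂ] HDR M n k)

/-- Every class of `L²` cohomology and every class of de Rham cohomology is represented by a form
which is closed and smooth on `M` and square integrable; for such forms the two notions of
exactness coincide. -/
structure Natural (F : M → ℙ ℂ (Hil (N + 1))) (A : Set M) (k : ℕ) : Prop where
  ontoL2 : ∀ w ∈ closedL2 (n := n) F A k, ∃ e ∈ closedL2 F A k, e ∈ closedDR M n k ∧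
    w - e ∈ exactL2 F A k
  ontoDR : ∀ w ∈ closedDR M n k, ∃ e ∈ closedL2 F A k, e ∈ closedDR M n k ∧
    w - e ∈ exactDR M n k
  exact_iff : ∀ e ∈ closedL2 (n := n) F A k, e ∈ closedDR M n k →
    (e ∈ exactL2 F A k ↔ e ∈ exactDR M n k)

/-- `F : M → X` is holomorphic, finite, onto `X`, of corank at most one, and it is injective and
an immersion over the regular locus of `X`. -/
structure IsNorm (F : M → ℙ ℂ (Hil (N + 1))) (X : Set (ℙ ℂ (Hil (N + 1)))) : Prop where
  range : Set.range F = X
  hol : ∀ x, ∃ U s, IsLift (n := n) F x U s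
  fin : ∀ x, (F ⁻¹' {F x}).Finite
  rank : ∀ x, CorankAt (n := n) F x
  inj : ∀ x y, F x ∉ sing n X → F x = F y → x = y
  imm : ∀ x, F x ∉ sing n X → ImmAt (n := n) F x

end

/-- (1) `H^k_(2)(M \ A, F^*(Fubini-Study)) ≅ H^k_dR(M)`, naturally. (2) The hypotheses on `A` hold
for `A = F ⁻¹' (sing X)` if `F` is the normalisation of the algebraic set `X = F(M)`. -/
theorem result (n N : ℕ) (hn : 0 < n) (M : Type) [TopologicalSpace M] [CompactSpace M] [T2Space M]
    [ChartedSpace (Fin n → ℂ) M] [IsManifold 𝓘(ℂ, Fin n → ℂ) 1 M]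
    (F : M → ℙ ℂ (Hil (N + 1))) :
    (∀ A : Set M, IsCorankOne (n := n) F A → ∀ k : ℕ,
      Iso (n := n) F A k ∧ Natural (n := n) F A k) ∧
    (∀ X : Set (ℙ ℂ (Hil (N + 1))), ConnectedSpace M → IsAlg X → IsNorm (n := n) F X →
      IsCorankOne (n := n) F (F ⁻¹' sing n X)) := by
  obtain ⟨m, rfl⟩ : ∃ m, n = m + 1 := ⟨n - 1, by omega⟩
  refine ⟨fun A hA k => ?_, fun X hc hX hF => ?_⟩
  · obtain ⟨h1, h2, h3⟩ := main_natural m N M F A hA k
    refine ⟨⟨(main m N M F A hA k).choose⟩, fun w hw => ?_, fun w hw => ?_, fun e he he' => ?_⟩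
    · obtain ⟨e, he, h⟩ := h1 w hw
      exact ⟨e, he.1, he.2, h⟩
    · obtain ⟨e, he, h⟩ := h2 w hw
      exact ⟨e, he.1, he.2, h⟩
    · exact h3 e ⟨he, he'⟩
  · obtain ⟨h1, h2, h3, h4, h5, h6⟩ := hF
    exact var M (m + 1) N F X ⟨h1, h2, h3, h4, h5, h6, jac M (m + 1) N F X hX h1 h2 h3 h4⟩

end Pool.Agent.Results.MP_ead3fc_ag.SmoothNormalisation
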